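import Mathlib
import Pool.Agent.J6H12.LWP.Fin

set_option autoImplicit false

open Complex Metric Set Filter Topology

namespace Pool.Agent.Results.MP_1a2790_an.EmbeddingUF

/-- The Stolz region `{z ∈ 𝔻 : |z - σ| < M (1 - |z|)}` with vertex `σ ∈ ∂𝔻`. -/
def Stolz (σ : ℂ) (M : ℝ) : Set ℂ := {z : ℂ | ‖z‖ < 1 ∧ ‖z - σ‖ < M * (1 - ‖z‖)}

/-- `f` has the angular limit `l` at `σ`. -/
def AngLim (f : ℂ → ℂ) (σ l : ℂ) : Prop :=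
  ∀ M : ℝ, 1 < M → Tendsto f (𝓝[Stolz σ M] σ) (𝓝 l)

/-- Univalent self-maps of the unit disc: the semigroup `𝔘`. -/
def Univalent (φ : ℂ → ℂ) : Prop :=
  DifferentiableOn ℂ φ (ball 0 1) ∧ MapsTo φ (ball 0 1) (ball 0 1) ∧ InjOn φ (ball 0 1)

/-- `σ` is a boundary regular fixed point of `φ`, with angular derivative `d`. -/
def BRFPWith (φ : ℂ → ℂ) (σ d : ℂ) : Prop :=
  AngLim φ σ σ ∧ AngLim (fun z => (φ z - σ) / (z - σ)) σ d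

/-- `σ` is a boundary regular fixed point of `φ`. -/
def BRFP (φ : ℂ → ℂ) (σ : ℂ) : Prop := ∃ d : ℂ, BRFPWith φ σ d

/-- `φ` is the identity of the disc. -/
def IsId (φ : ℂ → ℂ) : Prop := ∀ z ∈ ball (0 : ℂ) 1, φ z = z

/-- Membership in the semigroup `𝔘[F]`: univalent self-maps of the disc for which every
`σ ∈ F` is a boundary regular fixed point. -/
def InU (F : Set ℂ) (φ : ℂ → ℂ) : Prop := Univalent φ ∧ ∀ σ ∈ F, BRFP φ σ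

/-- Evolution families `(ψ_{s,t})_{0 ≤ s ≤ t}` of holomorphic self-maps of the disc. -/
def IsEvolutionFamily (ψ : ℝ → ℝ → ℂ → ℂ) : Prop :=
  (∀ s t, 0 ≤ s → s ≤ t → DifferentiableOn ℂ (ψ s t) (ball 0 1) ∧
    MapsTo (ψ s t) (ball 0 1) (ball 0 1)) ∧
  (∀ s, 0 ≤ s → ∀ z ∈ ball (0 : ℂ) 1, ψ s s z = z) ∧
  (∀ s u t, 0 ≤ s → s ≤ u → u ≤ t → ∀ z ∈ ball (0 : ℂ) 1, ψ s t z = ψ u t (ψ s u z)) ∧
  (∀ z ∈ ball (0 : ℂ) 1, ∀ T : ℝ, 0 < T → ∃ k : ℝ → ℝ, (∀ r, 0 ≤ k r) ∧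
    MeasureTheory.IntegrableOn k (Icc 0 T) ∧
    ∀ s u t, 0 ≤ s → s ≤ u → u ≤ t → t ≤ T →
      ‖ψ s u z - ψ s t z‖ ≤ ∫ r in u..t, k r)

/-- The embedding property of `𝔘[F]`. -/
def EmbeddingProperty (F : Set ℂ) : Prop :=
  ∀ φ : ℂ → ℂ, InU F φ → ¬ IsId φ →
    ∃ ψ : ℝ → ℝ → ℂ → ℂ, IsEvolutionFamily ψ ∧ (∀ s t, 0 ≤ s → s ≤ t → InU F (ψ s t)) ∧
      ∀ z ∈ ball (0 : ℂ) 1, ψ 0 1 z = φ z

/-- For every finite `F ⊂ ∂𝔻` the semigroup `𝔘[F]` has the embedding property. -/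
theorem result (F : Set ℂ) (hF : F.Finite) (hFs : F ⊆ sphere 0 1) : EmbeddingProperty F :=
  fun φ hφ hid => Pool.Agent.J6H12.LWP.embed_finite F hF hFs φ hφ.1 hφ.2 hid

end Pool.Agent.Results.MP_1a2790_an.EmbeddingUF
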